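import Pool.Agent.H503R3.FR.Stmts

set_option autoImplicit false

open IsLocalRing MvPolynomial

namespace H503R3.FR

theorem memTC_mul {p : ℕ} {B : Type} [CommRing B] {I : Ideal B} {z : B} (v : B)
    (h : MemTightClosure p I z) : MemTightClosure p I (v * z) := by
  obtain ⟨c, hc, e₀, he⟩ := h
  refine ⟨c, hc, e₀, fun e hee => ?_⟩
  have h1 := he e hee
  have h2 : c * (v * z) ^ p ^ e = v ^ p ^ e * (c * z ^ p ^ e) := by
    rw [mul_pow]; ring
  rw [h2]
  exact Ideal.mul_mem_left _ _ h1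

theorem psi_mem {k : Type} [Field k] (ψ : D k →ₗ[R k] R k) {n : ℕ} (x : Fin n → R k) (s : R k)
    (h : (s : D k) ∈ Ideal.span (Set.range fun l => (x l : D k))) :
    s * ψ 1 ∈ Ideal.span (Set.range x) := by
  rw [Ideal.mem_span_range_iff_exists_fun] at h
  obtain ⟨d, hd⟩ := h
  have h1 : ψ (s • (1 : D k)) = s * ψ 1 := by
    rw [map_smul]; rfl
  have h2 : s • (1 : D k) = ∑ l, x l • d l := by
    have h3 : s • (1 : D k) = (s : D k) := by
      rw [Algebra.smul_def]; simp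
    rw [h3, ← hd]
    refine Finset.sum_congr rfl fun l _ => ?_
    rw [Algebra.smul_def, mul_comm]
    rfl
  rw [← h1, h2, map_sum]
  refine Ideal.sum_mem _ fun l _ => ?_
  rw [map_smul]
  exact Ideal.mul_mem_right _ _ (Ideal.subset_span ⟨l, rfl⟩)

theorem taskCase1 : TaskCase1 := by
  intro hPsi hTC hScale hSFR hPar hCo hMem k _ _ _ P _ hP n x _ z hz
  obtain ⟨x', z', v, hv, hz', hspan⟩ := hScale (R k) P n x z
  have hz2 := memTC_mul v hz
  rw [← hz', ← hspan] at hz2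
  obtain ⟨u, hu, huz⟩ := hTC hSFR k P n x' z' hz2
  obtain ⟨ψ, hψ⟩ : ∃ ψ : D k →ₗ[R k] R k, ψ 1 ∉ P := by
    obtain ⟨⟨ψ₁, h1⟩, ⟨ψ₂, h2⟩⟩ := hPsi hPar hCo hMem k
    rcases hP with h | h
    · exact ⟨ψ₁, by rwa [h1]⟩
    · exact ⟨ψ₂, by rwa [h2]⟩
  have h1 : (u * z') * ψ 1 ∈ Ideal.span (Set.range x') := by
    apply psi_mem ψ x' (u * z')
    simpa using huz
  have h2 := Ideal.mem_map_of_mem (algebraMap (R k) (Localization.AtPrime P)) h1
  rw [Ideal.map_span, ← Set.range_comp, map_mul, map_mul] at h2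
  have hu' : IsUnit (algebraMap (R k) (Localization.AtPrime P) u) :=
    IsLocalization.map_units (Localization.AtPrime P) (⟨u, hu⟩ : P.primeCompl)
  have hψ' : IsUnit (algebraMap (R k) (Localization.AtPrime P) (ψ 1)) :=
    IsLocalization.map_units (Localization.AtPrime P) (⟨ψ 1, hψ⟩ : P.primeCompl)
  rw [Ideal.mul_unit_mem_iff_mem _ hψ', Ideal.unit_mul_mem_iff_mem _ hu', hz',
    Ideal.unit_mul_mem_iff_mem _ hv] at h2
  rw [← hspan]
  exact h2

end H503R3.FR
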